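import Pool.Agent.H29Ising.Main

/-!
# MP_a763a9_pr, Q1: a positive answer

The pressure of the extended Ising model (ferromagnetic coupling `β ≥ 0`, fields `k d_v + h` of
arbitrary signs) converges in probability to a constant on every locally tree-like sequence of
random graphs.

Idea of the proof.
(1) Lower bound `Phi ≤ log Z` for the Bethe functional `Phi` at ARBITRARY magnetizations (Ruozzi's
inequality); it is proved here by induction on the edges: adding an edge with coupling `β` to a
ferromagnetic model, whose two-point restricted free energy has a coupling `l ≥ 0` by the FKG
inequality, uses only the convexity of the two-spin constrained free energy in the coupling.
(2) Upper bound `log Z ≤ Phi(true magnetizations) + o(n)` at a suitable small shift of the field: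
the entropy is compared with the Bethe entropy by revealing the spins one by one; the error is
the mutual information with far away spins, which is controlled by the covariances in an annulus
(FKG, spatial Markov property), and these are small because the susceptibility is finite at a
suitable shift (convexity of the pressure in the field).
(3) The two-spin constrained free energy is supermodular in the two magnetizations.  Hence
the magnetizations may be replaced by the common-level quantiles of their conditional laws given
the local type (comonotone rounding, energy increment), at no loss: local rules are asymptotically
optimal.  The Bethe functional of a local rule depends only on the local statistics.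
(4) (1)-(3) show that two graphs with close local statistics have close pressures.  Truncation of
the degrees and the local convergence in probability finish the proof.
-/

set_option autoImplicit false

namespace Pool.Agent.Results.MP_a763a9_pr.PressureExists

open H29I Filter Topology

/-- For every locally tree-like sequence of random graphs (`G_n` on `Fin n` with law `μ n`), all
`β ≥ 0` and all real `k`, `h`, the pressure `(1/n) log Z` of the extended Ising model converges in
probability to a constant. -/
theorem result (μ : (n : ℕ) → SimpleGraph (Fin n) → ℝ) (hμ : LocallyTreeLike μ)
    (β k h : ℝ) (hβ : 0 ≤ β) :
    ∃ φ : ℝ, ∀ ε : ℝ, 0 < ε →
      Tendsto (fun n => pr μ n (fun G => ε < |Real.log (ZeIsing β k h G) / n - φ|)) atTop (𝓝 0) :=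
  H29I.final μ hμ β k h hβ

end Pool.Agent.Results.MP_a763a9_pr.PressureExists
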